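import Pool.Agent.Helper5.KPA.StP

set_option autoImplicit false

namespace Pool.Agent.Helper30.KPA

open Pool.Agent.Helper5.KPA Pool.Agent.Helper52.KP MvPolynomial

private lemma msh_step (G : ℤ → ℝ) (N : ℕ) (d : ℤ) :
    ∑ i ∈ Finset.range N, G (d + i) + G (d + N) =
      G d + ∑ i ∈ Finset.range N, G (d + 1 + i) := by
  rw [← Finset.sum_range_succ (fun i : ℕ => G (d + i)) N, Finset.sum_range_succ', add_comm]
  congr 1
  · simp
  · apply Finset.sum_congr rfl
    intro i _
    congr 1
    push_cast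
    ring

/-- MSH: shifted sums of an antitone function. -/
theorem hMSH : StMSH := by
  intro g L a x hg hg0 hgL
  refine ⟨⌈(L : ℝ) - x⌉₊ + L, ?_, ?_⟩
  · intro l hl
    apply hgL
    have h1 : (L : ℝ) - x ≤ (⌈(L : ℝ) - x⌉₊ : ℝ) := Nat.le_ceil _
    have h2 : ((⌈(L : ℝ) - x⌉₊ + L : ℕ) : ℝ) ≤ (l : ℝ) := by exact_mod_cast hl
    push_cast at h2
    have h3 : (L : ℝ) ≤ (l : ℝ) + x := by
      have : (0 : ℝ) ≤ (L : ℝ) := Nat.cast_nonneg _
      linarith
    exact_mod_cast h3.trans (Nat.le_ceil _)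
  · intro N hN
    set G : ℤ → ℝ := fun z => g z.toNat with hG
    have hGle : ∀ z, G z ≤ g 0 := fun z => hg (Nat.zero_le _)
    have hGnn : ∀ z, 0 ≤ G z := fun z => hg0 _
    have hG0 : ∀ z : ℤ, z ≤ 0 → G z = g 0 := by
      intro z hz
      simp only [hG, Int.toNat_of_nonpos hz]
    have hGL : ∀ z : ℤ, (L : ℤ) ≤ z → G z = 0 := by
      intro z hz
      apply hgL
      omega
    have hNL : L ≤ N := by omega
    have h1 : (L : ℝ) - x ≤ (⌈(L : ℝ) - x⌉₊ : ℝ) := Nat.le_ceil _
    have h2 : ((⌈(L : ℝ) - x⌉₊ + L : ℕ) : ℝ) ≤ (N : ℝ) := by exact_mod_cast hN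
    push_cast at h2
    have hcx : x ≤ (⌈x⌉ : ℝ) := Int.le_ceil x
    have hNc : (L : ℤ) ≤ ⌈x⌉ + N := by
      have h0 : (0 : ℝ) ≤ (L : ℝ) := Nat.cast_nonneg _
      have h3 : (L : ℝ) ≤ (⌈x⌉ : ℝ) + N := by linarith
      exact_mod_cast h3
    -- the base case
    have hfin : (∑ᶠ j : ℕ, g (j + 1)) = ∑ i ∈ Finset.range N, G (1 + i) := by
      rw [finsum_eq_sum_of_support_subset (s := Finset.range N)]
      · apply Finset.sum_congr rfl
        intro i _
        simp only [hG]
        congr 1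
        omega
      · intro j hj
        rw [Finset.coe_range, Set.mem_Iio]
        by_contra hcon
        exact hj (hgL _ (by omega))
    have hup : ∀ n : ℕ, ∑ i ∈ Finset.range N, G (1 + i) - (n : ℝ) * g 0 ≤
        ∑ i ∈ Finset.range N, G (1 + (n : ℤ) + i) := by
      intro n
      induction n with
      | zero => simp
      | succ n ih =>
        have h3 := msh_step G N (1 + (n : ℤ))
        have h4 := hGle (1 + (n : ℤ))
        have h5 := hGnn (1 + (n : ℤ) + N)
        have h6 : (1 + ((n + 1 : ℕ) : ℤ)) = 1 + (n : ℤ) + 1 := by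
          push_cast
          ring
        rw [h6]
        push_cast
        linarith
    have hdown : ∀ n : ℕ, (L : ℤ) ≤ 1 - (n : ℤ) + N →
        ∑ i ∈ Finset.range N, G (1 + i) + (n : ℝ) * g 0 ≤
          ∑ i ∈ Finset.range N, G (1 - (n : ℤ) + i) := by
      intro n
      induction n with
      | zero =>
        intro _
        simp
      | succ n ih =>
        intro hn
        have h3 := msh_step G N (1 - ((n + 1 : ℕ) : ℤ))
        have h4 := hG0 (1 - ((n + 1 : ℕ) : ℤ)) (by
          push_cast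
          linarith [Int.natCast_nonneg n])
        have h5 := hGL (1 - ((n + 1 : ℕ) : ℤ) + N) hn
        have h6 : (1 - ((n + 1 : ℕ) : ℤ)) + 1 = 1 - (n : ℤ) := by
          push_cast
          ring
        rw [h6] at h3
        have h7 := ih (by
          push_cast at hn
          linarith)
        push_cast
        push_cast at h3 h4 h5
        linarith
    -- the claim for all integers
    have hall : ∑ i ∈ Finset.range N, G (1 + i) - (((a : ℤ) + ⌈x⌉ - 1 : ℤ) : ℝ) * g 0 ≤
        ∑ i ∈ Finset.range N, G ((a : ℤ) + ⌈x⌉ + i) := by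
      rcases le_total 1 ((a : ℤ) + ⌈x⌉) with hle | hle
      · obtain ⟨n, hn⟩ := Int.eq_ofNat_of_zero_le (sub_nonneg.mpr hle)
        have h3 : (a : ℤ) + ⌈x⌉ = 1 + (n : ℤ) := by linarith
        have h4 := hup n
        rw [h3]
        have h5 : ((1 + (n : ℤ) - 1 : ℤ) : ℝ) = (n : ℝ) := by
          push_cast
          ring
        rw [h5]
        exact h4
      · obtain ⟨n, hn⟩ := Int.eq_ofNat_of_zero_le (sub_nonneg.mpr hle)
        have h3 : (a : ℤ) + ⌈x⌉ = 1 - (n : ℤ) := by linarith
        have h4 := hdown n (by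
          rw [← h3]
          linarith [Int.natCast_nonneg a])
        rw [h3]
        have h5 : ((1 - (n : ℤ) - 1 : ℤ) : ℝ) = -(n : ℝ) := by
          push_cast
          ring
        rw [h5]
        linarith
    have hsum : ∑ l ∈ Finset.Ico a (a + N), g ⌈(l : ℝ) + x⌉₊ =
        ∑ i ∈ Finset.range N, G ((a : ℤ) + ⌈x⌉ + i) := by
      rw [Finset.sum_Ico_eq_sum_range]
      have h3 : a + N - a = N := by omega
      rw [h3]
      apply Finset.sum_congr rfl
      intro i _
      simp only [hG]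
      congr 1
      have h4 : ((a + i : ℕ) : ℝ) + x = x + ((a + i : ℕ) : ℝ) := add_comm _ _
      rw [h4, ← Int.ceil_toNat, Int.ceil_add_natCast]
      congr 1
      push_cast
      ring
    rw [hfin, hsum]
    have h8 : (((a : ℤ) + ⌈x⌉ - 1 : ℤ) : ℝ) * g 0 ≤ ((a : ℝ) + x) * g 0 := by
      apply mul_le_mul_of_nonneg_right _ (hg0 0)
      push_cast
      linarith [Int.ceil_lt_add_one x]
    linarith

end Pool.Agent.Helper30.KPA
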